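import Pool.Agent.H54.LQ.Targets

/-!
# Row TGC
-/

namespace Pool.Agent.H41.LQ

open Set Filter Topology Pool.Agent.H93.CP Pool.Agent.H7.LP Pool.Agent.H7.LQ Pool.Agent.H54.LQ

theorem pf_TGC (h1 : T_KXA) : T_TGC := by
  intro G X _ _ _ _ _ B L M _ Y k m x g
  obtain ⟨hA, hmono, hsm, -⟩ := h1 G X B L M Y k x g
  constructor
  · intro hT m' hm
    refine hT (KX B L Y k m' x g) (hA m').1 (hmono m m' hm) ?_
    obtain ⟨U, hU, hU2⟩ := (hA m').2.2.1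
    exact ⟨U, hU, fun z hz hzU => hU2 z ((hA m).2.1 hz) hzU⟩
  · intro hF K₁ hR hK hO
    obtain ⟨U, hU, hU2⟩ := hO
    obtain ⟨V, hV, hV2⟩ := (hA m).2.2.1
    obtain ⟨m₁, hm₁⟩ := hsm K₁ hR (le_trans hK (hA m).2.1)
      ⟨U ∩ V, inter_mem hU hV, fun z hz hzU => hU2 z (hV2 z hz hzU.2) hzU.1⟩
    obtain ⟨F, hF1, hF2⟩ := hF (max m m₁) (le_max_left _ _)
    refine ⟨F, hF1, fun z hz => ?_⟩
    obtain ⟨f, hf, hfz⟩ := hF2 z hz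
    exact ⟨f, hf, hm₁ (hmono m₁ (max m m₁) (le_max_right _ _) hfz)⟩

end Pool.Agent.H41.LQ
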